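import Mathlib

/-!
# `sd(ℵ₀, κ) = 2^κ`, so `cf(2^{ℵ₁}) ≤ sd(ℵ₀, ℵ₁)`

There is an independent family of `2^κ` many functions `κ → 2` (Fichtenholz, Kantorovich and
Hausdorff): any finite pattern on finitely many members is realised at some point of `κ`. If a
family `F` of functions contains `2^n` many members of the independent family, then it shatters a
set with `n` elements: label these members by `{0,1}^n` and let the `k`-th point realise the
`k`-th coordinate. So a family of finite string dimension contains finitely many members of the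
independent family, a set in the `σ`-ideal contains countably many of them, and to cover all
functions `2^κ` many sets of the `σ`-ideal are needed.
-/

set_option autoImplicit false

namespace Pool.Agent.Results.MP_344d3d_lc.SdEqTwoPow

open Cardinal Set

/-- The family `F` of functions `W → 2` shatters the finite set `A`: every function on `A` is the
restriction of some member of `F`. -/
def Shatters {W : Type} (F : Set (W → Bool)) (A : Finset W) : Prop :=
  ∀ e : (a : W) → a ∈ A → Bool, ∃ x ∈ F, ∀ (a : W) (h : a ∈ A), x a = e a h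

/-- `F` has finite string dimension: for some natural number `n`, the family `F` shatters no set
with exactly `n` elements. -/
def FiniteStringDimension {W : Type} (F : Set (W → Bool)) : Prop :=
  ∃ n : ℕ, ∀ A : Finset W, A.card = n → ¬ Shatters F A

/-- The `σ`-ideal `I(ℵ₀, |W|)`: sets contained in a countable union of families of finite string
dimension. -/
def SigmaIdeal (W : Type) : Set (Set (W → Bool)) :=
  {F | ∃ G : ℕ → Set (W → Bool), (∀ k, FiniteStringDimension (G k)) ∧ F ⊆ ⋃ k, G k}

/-- The covering number `sd(ℵ₀, |W|)` of the `σ`-ideal: the least size of a family of members of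
the `σ`-ideal whose union is the set of all functions `W → 2`. -/
noncomputable def sd (W : Type) : Cardinal.{0} :=
  sInf {c | ∃ A : Set (Set (W → Bool)), A ⊆ SigmaIdeal W ∧ ⋃₀ A = Set.univ ∧ #A = c}

/-- The point of `Finset W × Finset (Finset W)` is in the set coded by `X` if the trace of `X` on
the first coordinate belongs to the second. -/
noncomputable def indep (W : Type) (X : Set W) (p : Finset W × Finset (Finset W)) : Bool := by
  classical
  exact decide (p.1.filter (fun a => a ∈ X) ∈ p.2)

theorem indep_spec (W : Type) [Infinite W] {ι : Type} [Finite ι] (X : ι → Set W)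
    (hX : Function.Injective X) (e : ι → Bool) :
    ∃ p : Finset W × Finset (Finset W), ∀ i, indep W (X i) p = e i := by
  classical
  haveI := Fintype.ofFinite ι
  have hd : ∀ q : ι × ι, ∃ a : W, q.1 ≠ q.2 → ¬ (a ∈ X q.1 ↔ a ∈ X q.2) := by
    rintro ⟨i, j⟩
    by_cases hij : i = j
    · exact ⟨Classical.arbitrary W, fun h => absurd hij h⟩
    · by_contra hcon
      push Not at hcon
      exact hij (hX (Set.ext fun a => (hcon a).2))
  choose d hd using hd
  let a : Finset W := Finset.univ.image d
  let tr : ι → Finset W := fun i => a.filter (fun w => w ∈ X i)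
  have htr : Function.Injective tr := by
    intro i j hij
    by_contra hne
    have hmem : d (i, j) ∈ a := Finset.mem_image_of_mem _ (Finset.mem_univ _)
    apply hd (i, j) hne
    have h2 : d (i, j) ∈ tr i ↔ d (i, j) ∈ tr j := by rw [hij]
    simpa [tr, hmem] using h2
  refine ⟨(a, (Finset.univ.filter (fun i => e i = true)).image tr), fun i => ?_⟩
  have key : tr i ∈ (Finset.univ.filter (fun i => e i = true)).image tr ↔ e i = true := by
    constructor
    · intro h
      obtain ⟨j, hj, hji⟩ := Finset.mem_image.mp h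
      rw [← htr hji]
      exact (Finset.mem_filter.mp hj).2
    · intro h
      exact Finset.mem_image_of_mem _ (Finset.mem_filter.mpr ⟨Finset.mem_univ _, h⟩)
  unfold indep
  cases h : e i with
  | true =>
    rw [decide_eq_true_eq]
    have := key.mpr h
    convert this using 1
  | false =>
    rw [decide_eq_false_iff_not]
    intro hc
    have : e i = true := key.mp (by convert hc using 1)
    rw [h] at this
    exact absurd this (by decide)

/-- An infinite set carries an independent family indexed by its subsets. -/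
theorem exists_indep (W : Type) [Infinite W] :
    ∃ x : Set W → (W → Bool), ∀ {ι : Type} [Finite ι] (X : ι → Set W),
      Function.Injective X → ∀ e : ι → Bool, ∃ w : W, ∀ i, x (X i) w = e i := by
  have hcard : #(Finset W × Finset (Finset W)) = #W := by
    rw [mk_prod, lift_id, lift_id, mk_finset_of_infinite, mk_finset_of_infinite,
      mk_finset_of_infinite]
    exact mul_eq_self (aleph0_le_mk W)
  obtain ⟨φ⟩ := Cardinal.eq.mp hcard
  refine ⟨fun X w => indep W X (φ.symm w), fun {ι} _ X hX e => ?_⟩
  obtain ⟨p, hp⟩ := indep_spec W X hX e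
  exact ⟨φ p, fun i => by simpa using hp i⟩

/-- A family of finite string dimension contains only finitely many members of an independent
family. -/
theorem finite_of_dim {W : Type} (x : Set W → (W → Bool))
    (hx : ∀ {ι : Type} [Finite ι] (X : ι → Set W),
      Function.Injective X → ∀ e : ι → Bool, ∃ w : W, ∀ i, x (X i) w = e i)
    (F : Set (W → Bool)) (hF : FiniteStringDimension F) : {X | x X ∈ F}.Finite := by
  classical
  obtain ⟨n, hn⟩ := hF
  by_contra hinf
  have hinf : {X | x X ∈ F}.Infinite := hinf
  obtain ⟨t, ht, htc⟩ := hinf.exists_subset_card_eq (Fintype.card (Fin n → Bool))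
  have : Fintype.card (Fin n → Bool) = Fintype.card t := by rw [Fintype.card_coe, htc]
  let φ := Fintype.equivOfCardEq this
  have hinj : Function.Injective fun s : Fin n → Bool => ((φ s : t) : Set W) :=
    fun s s' h => φ.injective (Subtype.ext h)
  have hw := fun k : Fin n => hx _ hinj (fun s => s k)
  choose w hw using hw
  have hwinj : Function.Injective w := by
    intro k l hkl
    by_contra hne
    have h1 := hw k (fun j => decide (j = k))
    have h2 := hw l (fun j => decide (j = k))
    rw [hkl] at h1
    rw [h1] at h2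
    simp at h2
    exact hne h2.symm
  refine hn (Finset.univ.image w) ?_ ?_
  · rw [Finset.card_image_of_injective _ hwinj, Finset.card_univ, Fintype.card_fin]
  · intro e
    have hmem : ∀ k, w k ∈ Finset.univ.image w := fun k =>
      Finset.mem_image_of_mem _ (Finset.mem_univ _)
    refine ⟨x (φ fun k => e (w k) (hmem k) : t), ht (φ _).2, ?_⟩
    intro a ha
    obtain ⟨k, -, rfl⟩ := Finset.mem_image.mp ha
    exact hw k _

theorem two_power_le {W : Type} [Infinite W] (A : Set (Set (W → Bool))) (hA : A ⊆ SigmaIdeal W)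
    (hU : ⋃₀ A = Set.univ) : (2 : Cardinal.{0}) ^ #W ≤ #A := by
  obtain ⟨x, hx⟩ := exists_indep W
  have hcount : ∀ F ∈ SigmaIdeal W, #{X | x X ∈ F} ≤ ℵ₀ := by
    rintro F ⟨G, hG, hFG⟩
    have hsub : {X | x X ∈ F} ⊆ ⋃ k, {X | x X ∈ G k} := by
      intro X hX
      obtain ⟨k, hk⟩ := mem_iUnion.mp (hFG hX)
      exact mem_iUnion.mpr ⟨k, hk⟩
    have hc : (⋃ k, {X | x X ∈ G k}).Countable :=
      countable_iUnion fun k => (finite_of_dim x hx (G k) (hG k)).countable
    exact (hc.mono hsub).le_aleph0
  have hcov : (univ : Set (Set W)) ⊆ ⋃ F : A, {X | x X ∈ (F : Set (W → Bool))} := by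
    intro X _
    have : x X ∈ ⋃₀ A := by rw [hU]; trivial
    obtain ⟨F, hF, hXF⟩ := this
    exact mem_iUnion.mpr ⟨⟨F, hF⟩, hXF⟩
  have h1 : (2 : Cardinal.{0}) ^ #W ≤ #A * ℵ₀ := by
    calc (2 : Cardinal.{0}) ^ #W = #(univ : Set (Set W)) := by rw [mk_univ, mk_set]
      _ ≤ #(⋃ F : A, {X | x X ∈ (F : Set (W → Bool))} : Set (Set W)) := mk_le_mk_of_subset hcov
      _ ≤ #A * ⨆ F : A, #{X | x X ∈ (F : Set (W → Bool))} := mk_iUnion_le _
      _ ≤ #A * ℵ₀ := by
        gcongr
        exact ciSup_le' fun F => hcount F (hA F.2)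
  have h2 : ℵ₀ < (2 : Cardinal.{0}) ^ #W := (aleph0_le_mk W).trans_lt (cantor _)
  by_contra hlt
  push Not at hlt
  rcases le_total (#A) ℵ₀ with h | h
  · have : #A * ℵ₀ ≤ ℵ₀ := (mul_le_mul' h le_rfl).trans (by simp)
    exact absurd (h1.trans this) (not_le.mpr h2)
  · rw [mul_eq_left h h aleph0_ne_zero] at h1
    exact absurd h1 (not_le.mpr hlt)

/-- The covering number of the `σ`-ideal generated by the families of finite string dimension is
as large as possible. -/
theorem sd_eq (W : Type) [Infinite W] : sd W = 2 ^ #W := by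
  have hmem : (2 : Cardinal.{0}) ^ #W ∈
      {c | ∃ A : Set (Set (W → Bool)), A ⊆ SigmaIdeal W ∧ ⋃₀ A = Set.univ ∧ #A = c} := by
    refine ⟨range fun x : W → Bool => ({x} : Set (W → Bool)), ?_, ?_, ?_⟩
    · rintro _ ⟨x, rfl⟩
      refine ⟨fun _ => {x}, fun _ => ⟨1, fun A hA hS => ?_⟩, fun y hy =>
        mem_iUnion.mpr ⟨0, hy⟩⟩
      obtain ⟨a, rfl⟩ := Finset.card_eq_one.mp hA
      obtain ⟨y, hy, hya⟩ := hS fun b _ => !(x b)
      have := hya a (Finset.mem_singleton_self a)
      rw [mem_singleton_iff.mp hy] at this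
      cases hxa : x a <;> simp [hxa] at this
    · refine eq_univ_of_forall fun x => ⟨{x}, ⟨x, rfl⟩, rfl⟩
    · rw [mk_range_eq _ singleton_injective]
      simp
  exact le_antisymm (csInf_le' hmem) (le_csInf ⟨_, hmem⟩ fun c ⟨A, hA, hU, hc⟩ =>
    hc ▸ two_power_le A hA hU)

/-- For every infinite set `W` the cardinal `sd(ℵ₀, |W|)` is `2^|W|`. So if `W` has size `ℵ₁` then
`cf(2^{ℵ₁}) ≤ sd(ℵ₀, ℵ₁)`. -/
theorem result : (∀ (W : Type) [Infinite W], sd W = 2 ^ #W) ∧
    ∀ W : Type, #W = ℵ₁ → sd W = 2 ^ (ℵ₁ : Cardinal.{0}) ∧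
      ((2 : Cardinal.{0}) ^ (ℵ₁ : Cardinal.{0})).ord.cof ≤ sd W := by
  refine ⟨fun W _ => sd_eq W, fun W hW => ?_⟩
  haveI : Infinite W := infinite_iff.mpr (hW ▸ aleph0_le_aleph 1)
  have h := sd_eq W
  rw [hW] at h
  refine ⟨h, ?_⟩
  rw [h]
  exact (Ordinal.cof_le_card _).trans_eq (card_ord _)

end Pool.Agent.Results.MP_344d3d_lc.SdEqTwoPow
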